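import Mathlib

set_option autoImplicit false

open MeasureTheory Set

namespace Pool.Agent.Results.MP_290264_an.FreeSubgroup

/-- `R` is a set of topological recurrence in `G`. -/
def TopRec (G : Type) [Group G] (R : Set G) : Prop :=
  ∀ (X : Type) [TopologicalSpace X] [CompactSpace X] [TopologicalSpace.MetrizableSpace X]
    [MulAction G X], (∀ g : G, Continuous fun x : X => g • x) →
    (∀ x : X, Dense (MulAction.orbit G x)) →
    ∀ U : Set X, IsOpen U → U.Nonempty →
      ∃ g ∈ R, g ≠ 1 ∧ (U ∩ (fun x => g • x) ⁻¹' U).Nonempty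

/-- `R` is a set of measurable recurrence in `G`. -/
def MeasRec (G : Type) [Group G] (R : Set G) : Prop :=
  ∀ (X : Type) [MeasurableSpace X] (μ : Measure X) [IsProbabilityMeasure μ] [MulAction G X],
    (∀ g : G, MeasurePreserving (fun x : X => g • x) μ μ) →
    ∀ A : Set X, MeasurableSet A → 0 < μ A →
      ∃ g ∈ R, g ≠ 1 ∧ 0 < μ (A ∩ (fun x => g • x) ⁻¹' A)

/-! ### a combinatorial set in the free group -/

theorem perms : ∃ (α β : Equiv.Perm (ℤ × ℕ)) (A : Set (ℤ × ℕ)),
    (∀ k : ℕ, 0 < k → ∀ q, q ∈ A → (β ^ k) q ∉ A) ∧ (∀ q, α q ∈ A ∨ α (β q) ∈ A) := by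
  classical
  let β : Equiv.Perm (ℤ × ℕ) := (Equiv.addRight (1 : ℤ)).prodCongr (Equiv.refl ℕ)
  have hβ : ∀ (k : ℕ) (q : ℤ × ℕ), (β ^ k) q = (q.1 + k, q.2) := by
    intro k
    induction k with
    | zero => intro q; simp
    | succ k ih =>
      intro q
      rw [pow_succ', Equiv.Perm.mul_apply, ih]
      simp only [β, Equiv.prodCongr_apply, Prod.map, Equiv.coe_addRight, Equiv.refl_apply]
      push_cast
      rw [add_assoc]
  have i1 : Infinite {q : ℤ × ℕ // Even q.1} :=
    Infinite.of_injective (fun n : ℕ => (⟨(0, n), by simp⟩ : {q : ℤ × ℕ // Even q.1}))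
      (fun m n h => by simpa using h)
  have i2 : Infinite {q : ℤ × ℕ // q.1 = 0} :=
    Infinite.of_injective (fun n : ℕ => (⟨(0, n), by simp⟩ : {q : ℤ × ℕ // q.1 = 0}))
      (fun m n h => by simpa using h)
  have i3 : Infinite {q : ℤ × ℕ // ¬ Even q.1} :=
    Infinite.of_injective (fun n : ℕ => (⟨(1, n), by simp⟩ : {q : ℤ × ℕ // ¬ Even q.1}))
      (fun m n h => by simpa using h)
  have i4 : Infinite {q : ℤ × ℕ // ¬ q.1 = 0} :=
    Infinite.of_injective (fun n : ℕ => (⟨(1, n), by simp⟩ : {q : ℤ × ℕ // ¬ q.1 = 0}))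
      (fun m n h => by simpa using h)
  obtain ⟨e1⟩ : Nonempty ({q : ℤ × ℕ // Even q.1} ≃ {q : ℤ × ℕ // q.1 = 0}) :=
    nonempty_equiv_of_countable
  obtain ⟨e2⟩ : Nonempty ({q : ℤ × ℕ // ¬ Even q.1} ≃ {q : ℤ × ℕ // ¬ q.1 = 0}) :=
    nonempty_equiv_of_countable
  refine ⟨Equiv.subtypeCongr e1 e2, β, {q | q.1 = 0}, ?_, ?_⟩
  · intro k hk q hq
    rw [hβ]
    simp only [mem_ofPred_eq] at hq ⊢
    omega
  · have key : ∀ q : ℤ × ℕ, Even q.1 → (Equiv.subtypeCongr e1 e2) q ∈ {q : ℤ × ℕ | q.1 = 0} := by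
      intro q hq
      have : (Equiv.subtypeCongr e1 e2) q = e1 ⟨q, hq⟩ := by
        simp [Equiv.subtypeCongr, Equiv.sumCompl, hq]
      rw [this]
      exact (e1 ⟨q, hq⟩).2
    intro q
    rcases Int.even_or_odd q.1 with h | h
    · exact Or.inl (key q h)
    · right
      apply key
      have := hβ 1 q
      rw [pow_one] at this
      rw [this]
      simpa using h.add_one

theorem exists_set (G : Type) [Group G] (f : FreeGroup (Fin 2) →* G) (hf : Function.Injective f) :
    ∃ (a b : G) (S : Set G), (∀ k : ℕ, 0 < k → ∀ g, g ∈ S → b ^ k * g ∉ S) ∧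
      (∀ g, a * g ∈ S ∨ a * b * g ∈ S) := by
  classical
  obtain ⟨α, β, A, h1, h2⟩ := perms
  let φ : FreeGroup (Fin 2) →* Equiv.Perm (ℤ × ℕ) := FreeGroup.lift ![α, β]
  obtain ⟨Tr, hT, -⟩ := Subgroup.exists_isComplement_right f.range (1 : G)
  let e := MonoidHom.ofInjective hf
  let w : G → FreeGroup (Fin 2) := fun g => e.symm (hT.equiv g).1
  have hw : ∀ (u : FreeGroup (Fin 2)) (g : G), w (f u * g) = u * w g := by
    intro u g
    have h3 := hT.equiv_mul_left (e u) g
    have h4 : ((e u : f.range) : G) = f u := rfl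
    rw [h4] at h3
    simp only [w]
    rw [h3]
    show e.symm (e u * (hT.equiv g).1) = u * e.symm (hT.equiv g).1
    rw [map_mul, MulEquiv.symm_apply_apply]
  refine ⟨f (FreeGroup.of 0), f (FreeGroup.of 1), {g | φ (w g) (0, 0) ∈ A}, ?_, ?_⟩
  · intro k hk g hg
    simp only [mem_ofPred_eq] at hg ⊢
    rw [← map_pow, hw, map_mul, Equiv.Perm.mul_apply, map_pow]
    have : φ (FreeGroup.of 1) = β := by simp [φ]
    rw [this]
    exact h1 k hk _ hg
  · intro g
    simp only [mem_ofPred_eq]
    have e0 : φ (FreeGroup.of 0) = α := by simp [φ]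
    have e1 : φ (FreeGroup.of 1) = β := by simp [φ]
    rw [← map_mul f, hw, hw, map_mul, map_mul, map_mul, e0, e1]
    exact h2 (φ (w g) (0, 0))

/-! ### measurable recurrence of `{b^k}` -/

theorem measRec (G : Type) [Group G] (b : G) (hb : ∀ k : ℕ, 0 < k → b ^ k ≠ 1) :
    MeasRec G {g | ∃ k : ℕ, 0 < k ∧ g = b ^ k} := by
  intro X _ μ _ _ hm A hA hpos
  have hc := (hm b).conservative
  obtain ⟨m, hm0, hm1⟩ := hc.exists_gt_measure_inter_ne_zero hA.nullMeasurableSet hpos.ne' 0
  refine ⟨b ^ m, ⟨m, hm0, rfl⟩, hb m hm0, ?_⟩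
  rw [smul_iterate] at hm1
  exact pos_iff_ne_zero.mpr hm1

/-! ### the shift -/

/-- `{0,1}^G` -/
def Sh (G : Type) : Type := G → Bool

instance (G : Type) : TopologicalSpace (Sh G) := inferInstanceAs (TopologicalSpace (G → Bool))
instance (G : Type) : CompactSpace (Sh G) := inferInstanceAs (CompactSpace (G → Bool))
instance (G : Type) : T2Space (Sh G) := inferInstanceAs (T2Space (G → Bool))
instance (G : Type) [Countable G] : SecondCountableTopology (Sh G) :=
  inferInstanceAs (SecondCountableTopology (G → Bool))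

instance (G : Type) [Group G] : MulAction G (Sh G) where
  smul g x := fun h => x (h * g)
  one_smul x := by funext h; show x (h * 1) = x h; rw [mul_one]
  mul_smul g k x := by funext h; show x (h * (g * k)) = x (h * g * k); rw [mul_assoc]

theorem smul_app {G : Type} [Group G] (g : G) (x : Sh G) (h : G) : (g • x) h = x (h * g) := rfl

theorem cont_smul {G : Type} [Group G] (g : G) : Continuous fun x : Sh G => g • x :=
  continuous_pi fun h => continuous_apply (h * g)

theorem cont_app {G : Type} (h : G) : Continuous fun x : Sh G => x h := continuous_apply h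

/-- closed invariant nonempty -/
def Good {G : Type} [Group G] (M : Set (Sh G)) : Prop :=
  IsClosed M ∧ M.Nonempty ∧ ∀ g : G, ∀ x ∈ M, g • x ∈ M

theorem exists_minimal {G : Type} [Group G] (M0 : Set (Sh G)) (h0 : Good M0) :
    ∃ M ⊆ M0, Good M ∧ ∀ N ⊆ M, Good N → N = M := by
  obtain ⟨M, hM, hmin⟩ := zorn_superset_nonempty {M : Set (Sh G) | Good M} (by
    intro c hc hchain hne
    refine ⟨⋂₀ c, ⟨isClosed_sInter fun s hs => (hc hs).1, ?_, ?_⟩, fun s hs => sInter_subset_of_mem hs⟩
    · have := hne.to_subtype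
      rw [sInter_eq_iInter]
      apply IsCompact.nonempty_iInter_of_directed_nonempty_isCompact_isClosed
      · intro s t
        rcases hchain.total s.2 t.2 with h | h
        · exact ⟨s, Subset.rfl, h⟩
        · exact ⟨t, h, Subset.rfl⟩
      · exact fun s => (hc s.2).2.1
      · exact fun s => (hc s.2).1.isCompact
      · exact fun s => (hc s.2).1
    · intro g x hx s hs
      exact (hc hs).2.2 g x (hx s hs)) M0 h0
  refine ⟨M, hM, hmin.prop, fun N hN hgood => ?_⟩
  exact Subset.antisymm hN (hmin.le_of_le hgood hN)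

theorem dense_orbit {G : Type} [Group G] (M : Set (Sh G)) (hM : Good M)
    (hmin : ∀ N ⊆ M, Good N → N = M) (x : Sh G) (hx : x ∈ M) :
    closure (MulAction.orbit G x) = M := by
  apply hmin
  · apply closure_minimal _ hM.1
    rintro _ ⟨g, rfl⟩
    exact hM.2.2 g x hx
  · refine ⟨isClosed_closure, ⟨x, subset_closure (MulAction.mem_orbit_self x)⟩, ?_⟩
    intro g y hy
    refine map_mem_closure (cont_smul g) hy ?_
    rintro _ ⟨k, rfl⟩
    exact ⟨g * k, mul_smul g k x⟩

theorem not_topRec (G : Type) [Group G] [Countable G] (a b : G) (S : Set G)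
    (h1 : ∀ k : ℕ, 0 < k → ∀ g, g ∈ S → b ^ k * g ∉ S) (h2 : ∀ g, a * g ∈ S ∨ a * b * g ∈ S) :
    ¬ TopRec G {g | ∃ k : ℕ, 0 < k ∧ g = b ^ k} := by
  classical
  let X0 : Set (Sh G) := (⋂ h : G, ⋂ k : ℕ, ⋂ _ : 0 < k, {x : Sh G | x h = false ∨ x (b ^ k * h) = false})
    ∩ ⋂ h : G, {x : Sh G | x (a * h) = true ∨ x (a * b * h) = true}
  have hcl : ∀ (h : G) (v : Bool), IsClosed {x : Sh G | x h = v} := fun h v =>
    isClosed_eq (cont_app h) continuous_const
  have hX0 : Good X0 := by
    refine ⟨?_, ?_, ?_⟩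
    · apply IsClosed.inter
      · exact isClosed_iInter fun h => isClosed_iInter fun k => isClosed_iInter fun _ =>
          (hcl h false).union (hcl _ false)
      · exact isClosed_iInter fun h => (hcl _ true).union (hcl _ true)
    · refine ⟨fun g => decide (g ∈ S), ?_, ?_⟩
      · refine mem_iInter.mpr fun h => mem_iInter.mpr fun k => mem_iInter.mpr fun hk => ?_
        show decide (h ∈ S) = false ∨ decide (b ^ k * h ∈ S) = false
        by_cases hh : h ∈ S
        · right; simpa using h1 k hk h hh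
        · left; simpa using hh
      · refine mem_iInter.mpr fun h => ?_
        show decide (a * h ∈ S) = true ∨ decide (a * b * h ∈ S) = true
        simpa using h2 h
    · rintro g x ⟨hx1, hx2⟩
      simp only [mem_iInter] at hx1 hx2
      refine ⟨?_, ?_⟩
      · simp only [mem_iInter]
        intro h k hk
        have := hx1 (h * g) k hk
        show x (h * g) = false ∨ x (b ^ k * h * g) = false
        rw [mul_assoc]
        exact this
      · simp only [mem_iInter]
        intro h
        have := hx2 (h * g)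
        show x (a * h * g) = true ∨ x (a * b * h * g) = true
        rw [mul_assoc a h g, mul_assoc (a * b) h g]
        exact this
  obtain ⟨M, hMX, hM, hmin⟩ := exists_minimal X0 hX0
  intro hrec
  let _ : MulAction G M :=
    { smul := fun g x => ⟨g • x.1, hM.2.2 g x.1 x.2⟩
      one_smul := fun x => Subtype.ext (one_smul G x.1)
      mul_smul := fun g k x => Subtype.ext (mul_smul g k x.1) }
  have hcoe : ∀ (g : G) (x : M), ((g • x : M) : Sh G) = g • x.1 := fun g x => rfl
  have : CompactSpace M := isCompact_iff_compactSpace.mp hM.1.isCompact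
  have : TopologicalSpace.MetrizableSpace (Sh G) :=
    TopologicalSpace.metrizableSpace_of_t3_secondCountable _
  have : TopologicalSpace.MetrizableSpace M := inferInstance
  have hne : ∃ y : M, y.1 1 = true := by
    obtain ⟨x, hx⟩ := hM.2.1
    have hx2 := (hMX hx).2
    simp only [mem_iInter] at hx2
    rcases hx2 1 with h | h
    · refine ⟨⟨a • x, hM.2.2 a x hx⟩, ?_⟩
      show x (1 * a) = true
      rw [one_mul]; rw [mul_one] at h; exact h
    · refine ⟨⟨(a * b) • x, hM.2.2 (a * b) x hx⟩, ?_⟩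
      show x (1 * (a * b)) = true
      rw [one_mul]; rw [mul_one] at h; exact h
  obtain ⟨g, ⟨k, hk, rfl⟩, -, y, hy1, hy2⟩ := hrec M
    (fun g => Continuous.subtype_mk ((cont_smul g).comp continuous_subtype_val) _)
    (fun x => by
      intro y
      rw [closure_subtype]
      have h3 : (Subtype.val '' (MulAction.orbit G x) : Set (Sh G)) = MulAction.orbit G x.1 := by
        ext z
        constructor
        · rintro ⟨_, ⟨g, rfl⟩, rfl⟩
          exact ⟨g, rfl⟩
        · rintro ⟨g, rfl⟩
          exact ⟨g • x, ⟨g, rfl⟩, rfl⟩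
      rw [h3, dense_orbit M hM hmin x.1 x.2]
      exact y.2)
    {y : M | y.1 1 = true}
    ((isOpen_discrete {true}).preimage ((cont_app 1).comp continuous_subtype_val)) hne
  have hy1' : y.1 1 = true := hy1
  have hy2' : y.1 (1 * b ^ k) = true := hy2
  have hyX := (hMX y.2).1
  simp only [mem_iInter] at hyX
  have h5 := hyX 1 k hk
  rw [one_mul] at hy2'
  have h6 : y.1 1 = false ∨ y.1 (b ^ k * 1) = false := h5
  rw [mul_one, hy1', hy2'] at h6
  simp at h6

/-- Every countable group with a nonabelian free subgroup has a set of measurable recurrence which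
is not a set of topological recurrence. -/
theorem result : ∀ (G : Type) [Group G] [Countable G],
    (∃ f : FreeGroup (Fin 2) →* G, Function.Injective f) →
    ∃ R : Set G, MeasRec G R ∧ ¬ TopRec G R := by
  intro G _ _ ⟨f, hf⟩
  obtain ⟨a, b, S, h1, h2⟩ := exists_set G f hf
  refine ⟨{g | ∃ k : ℕ, 0 < k ∧ g = b ^ k}, measRec G b ?_, not_topRec G a b S h1 h2⟩
  intro k hk hb
  rcases h2 1 with h | h
  · have := h1 k hk _ h
    rw [hb, one_mul] at this
    exact this h
  · have := h1 k hk _ h
    rw [hb, one_mul] at this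
    exact this h

end Pool.Agent.Results.MP_290264_an.FreeSubgroup
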